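import Mathlib

/-!
Definitions for the dimer model on the cubic lattice, following the problem file.
-/

open MeasureTheory ProbabilityTheory

namespace Pool.Agent.Work.MP_5cb0a4_pr

/-- Vertices of the cubic lattice. -/
abbrev V : Type := Fin 3 → ℤ

/-- Nearest neighbours in the cubic lattice: l1 distance one. -/
def Nbr (x y : V) : Prop := ∑ i, |x i - y i| = 1

/-- A vertex (or a translation vector) is even if its coordinate sum is even. -/
def IsEven (x : V) : Prop := Even (∑ i, x i)

/-- Dimer configurations: perfect matchings of the nearest neighbour graph, given by the partner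
map `τ`. It carries the product (cylinder) sigma-algebra, as a subtype of `V → V`. -/
abbrev Dimer : Type := {τ : V → V // ∀ x, Nbr x (τ x) ∧ τ (τ x) = x}

/-- The edges of `τ` that are not contained in `Λ`, as a predicate on ordered pairs. -/
def outside (Λ : Finset V) (τ : Dimer) : V × V → Prop :=
  fun e => τ.1 e.1 = e.2 ∧ ¬ (e.1 ∈ Λ ∧ e.2 ∈ Λ)

/-- The sigma-algebra generated by the edges not contained in `Λ`. -/
abbrev outsideAlg (Λ : Finset V) : MeasurableSpace Dimer :=
  MeasurableSpace.comap (outside Λ) inferInstance

/-- The completions: configurations with the same edges as `τ` outside `Λ`. -/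
def completions (Λ : Finset V) (τ : Dimer) : Set Dimer :=
  {σ | outside Λ σ = outside Λ τ}

/-- Gibbs property: for every finite `Λ`, conditionally on the edges not contained in `Λ`, the
configuration is uniform among all completions. -/
def IsGibbs (ν : Measure Dimer) : Prop :=
  ∀ (Λ : Finset V) (A : Set Dimer), MeasurableSet A →
    ν[A.indicator (fun _ => (1 : ℝ)) | outsideAlg Λ] =ᵐ[ν]
      fun τ => (uniformOn (completions Λ τ)).real A

/-- Translation of a configuration by the vector `v`. -/
def shift (v : V) (τ : Dimer) : Dimer :=
  ⟨fun x => τ.1 (x - v) + v, fun x => by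
    refine ⟨?_, ?_⟩
    · have h := (τ.2 (x - v)).1
      refine Eq.trans (Finset.sum_congr rfl fun i _ => ?_) h
      simp only [Pi.add_apply, Pi.sub_apply]
      congr 1
      ring
    · have h := (τ.2 (x - v)).2
      simp [h]⟩

/-- Ergodic Gibbs measure: a Gibbs probability measure, invariant under even translations, for
which every measurable set that is (almost surely) invariant under all even translations has
measure zero or one. -/
structure IsErgodicGibbs (ν : Measure Dimer) : Prop where
  prob : IsProbabilityMeasure ν
  gibbs : IsGibbs ν
  invariant : ∀ v, IsEven v → MeasurePreserving (shift v) ν ν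
  ergodic : ∀ A : Set Dimer, MeasurableSet A →
    (∀ v, IsEven v → shift v ⁻¹' A =ᵐ[ν] A) → ν A = 0 ∨ ν A = 1

/-- The mean current: the expectation of `τ 0 - 0`. -/
noncomputable def meanCurrent (ν : Measure Dimer) : Fin 3 → ℝ :=
  fun i => ∫ τ, ((τ.1 0 i : ℤ) : ℝ) ∂ν

/-- The union of two dimer configurations (a doubled edge becomes a single edge, which does not
change the components). -/
def unionGraph (τ₁ τ₂ : Dimer) : SimpleGraph V :=
  SimpleGraph.fromRel fun x y => τ₁.1 x = y ∨ τ₂.1 x = y

/-- The infinite paths of the union: its connected components with infinitely many vertices. -/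
def infinitePaths (τ₁ τ₂ : Dimer) : Set (unionGraph τ₁ τ₂).ConnectedComponent :=
  {c | c.supp.Infinite}

end Pool.Agent.Work.MP_5cb0a4_pr
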