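import Pool.Agent.Work.MP_5cb0a4_pr.Defs

-- merged part: Pool.Agent.Work.MP_5cb0a4_pr.Frozen
section
open MeasureTheory ProbabilityTheory

namespace Pool.Agent.Work.MP_5cb0a4_pr

/-- Signed height. -/
def ht (ε : Fin 3 → ℤ) (x : V) : ℤ := ∑ i, ε i * x i

lemma ht_add (ε : Fin 3 → ℤ) (x y : V) : ht ε (x + y) = ht ε x + ht ε y := by
  simp [ht, mul_add, Finset.sum_add_distrib]

lemma ht_sub (ε : Fin 3 → ℤ) (x y : V) : ht ε (x - y) = ht ε x - ht ε y := by
  simp [ht, mul_sub, Finset.sum_sub_distrib]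

lemma ht_single {ε : Fin 3 → ℤ} (hε : ∀ i, ε i = 1 ∨ ε i = -1) (i : Fin 3) :
    ht ε (Pi.single i (ε i)) = 1 := by
  unfold ht
  rw [Finset.sum_eq_single i]
  · rcases hε i with h | h <;> simp [h]
  · intro j _ hj
    simp [hj]
  · simp

lemma even_ht_iff {ε : Fin 3 → ℤ} (hε : ∀ i, ε i = 1 ∨ ε i = -1) (x : V) :
    Even (ht ε x) ↔ IsEven x := by
  unfold ht IsEven
  simp only [Fin.sum_univ_three, Int.even_iff]
  rcases hε 0 with h0 | h0 <;> rcases hε 1 with h1 | h1 <;> rcases hε 2 with h2 | h2 <;>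
    rw [h0, h1, h2] <;> omega

/-- The frozen configuration with direction `f k` in slab `k`. -/
def tauFun (ε : Fin 3 → ℤ) (f : ℤ → Fin 3) (x : V) : V :=
  if Even (ht ε x) then x + Pi.single (f (ht ε x / 2)) (ε (f (ht ε x / 2)))
  else x - Pi.single (f (ht ε x / 2)) (ε (f (ht ε x / 2)))

lemma nbr_add_single {ε : Fin 3 → ℤ} (hε : ∀ i, ε i = 1 ∨ ε i = -1) (x : V) (i : Fin 3) :
    Nbr x (x + Pi.single i (ε i)) := by
  unfold Nbr
  rw [Finset.sum_eq_single i]
  · rcases hε i with h | h <;> simp [h]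
  · intro j _ hj
    simp [hj]
  · simp

lemma nbr_sub_single {ε : Fin 3 → ℤ} (hε : ∀ i, ε i = 1 ∨ ε i = -1) (x : V) (i : Fin 3) :
    Nbr x (x - Pi.single i (ε i)) := by
  unfold Nbr
  rw [Finset.sum_eq_single i]
  · rcases hε i with h | h <;> simp [h]
  · intro j _ hj
    simp [hj]
  · simp

def tau {ε : Fin 3 → ℤ} (hε : ∀ i, ε i = 1 ∨ ε i = -1) (f : ℤ → Fin 3) : Dimer :=
  ⟨tauFun ε f, fun x => by
    by_cases hx : Even (ht ε x)
    · have h1 : tauFun ε f x = x + Pi.single (f (ht ε x / 2)) (ε (f (ht ε x / 2))) := by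
        simp [tauFun, hx]
      refine ⟨h1 ▸ nbr_add_single hε x _, ?_⟩
      have h2 : ht ε (tauFun ε f x) = ht ε x + 1 := by rw [h1, ht_add, ht_single hε]
      have h3 : ¬ Even (ht ε (tauFun ε f x)) := by
        rw [h2, Int.even_add_one]; exact fun h => h hx
      have h4 : ht ε (tauFun ε f x) / 2 = ht ε x / 2 := by
        rw [h2]; rw [Int.even_iff] at hx; omega
      rw [tauFun, if_neg h3, h4, h1]
      simp
    · have h1 : tauFun ε f x = x - Pi.single (f (ht ε x / 2)) (ε (f (ht ε x / 2))) := by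
        simp [tauFun, hx]
      refine ⟨h1 ▸ nbr_sub_single hε x _, ?_⟩
      have h2 : ht ε (tauFun ε f x) = ht ε x - 1 := by rw [h1, ht_sub, ht_single hε]
      have h3 : Even (ht ε (tauFun ε f x)) := by
        rw [h2, Int.even_sub_one]; exact hx
      have h4 : ht ε (tauFun ε f x) / 2 = ht ε x / 2 := by
        rw [h2]; rw [Int.even_iff] at hx; omega
      rw [tauFun, if_pos h3, h4, h1]
      simp⟩

lemma tau_even {ε : Fin 3 → ℤ} (hε : ∀ i, ε i = 1 ∨ ε i = -1) (f : ℤ → Fin 3) {x : V}
    (hx : Even (ht ε x)) :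
    (tau hε f).1 x = x + Pi.single (f (ht ε x / 2)) (ε (f (ht ε x / 2))) := by
  simp [tau, tauFun, hx]

lemma shift_tau {ε : Fin 3 → ℤ} (hε : ∀ i, ε i = 1 ∨ ε i = -1) (f : ℤ → Fin 3) {v : V}
    (hv : IsEven v) :
    shift v (tau hε f) = tau hε (fun k => f (k - ht ε v / 2)) := by
  have hv' := (even_ht_iff hε v).2 hv
  apply Subtype.ext
  funext x
  have h1 : Even (ht ε (x - v)) ↔ Even (ht ε x) := by
    rw [ht_sub, Int.even_sub]; simp [hv']
  have h2 : ht ε (x - v) / 2 = ht ε x / 2 - ht ε v / 2 := by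
    rw [ht_sub]; rw [Int.even_iff] at hv'; omega
  simp only [shift, tau, tauFun, h1, h2]
  split_ifs <;> abel

lemma ht_nbr {ε : Fin 3 → ℤ} (hε : ∀ i, ε i = 1 ∨ ε i = -1) {x y : V} (h : Nbr x y) :
    ht ε y = ht ε x + 1 ∨ ht ε y = ht ε x - 1 := by
  unfold Nbr at h
  unfold ht
  simp only [Fin.sum_univ_three, Int.abs_eq_natAbs] at h ⊢
  rcases hε 0 with h0 | h0 <;> rcases hε 1 with h1 | h1 <;> rcases hε 2 with h2 | h2 <;>
    rw [h0, h1, h2] <;> omega

lemma eq_of_nbr {ε : Fin 3 → ℤ} (hε : ∀ i, ε i = 1 ∨ ε i = -1) {x y : V} (h : Nbr x y)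
    (i : Fin 3) (hi : ε i * x i + 1 ≤ ε i * y i) : y = x + Pi.single i (ε i) := by
  unfold Nbr at h
  simp only [Fin.sum_univ_three, Int.abs_eq_natAbs] at h
  funext j
  rcases hε i with h0 | h0 <;> rw [h0] at hi ⊢ <;> fin_cases i <;> fin_cases j <;>
    simp at hi ⊢ <;> omega

/-- Rigidity: a frozen configuration is its own only completion. -/
lemma rigid {ε : Fin 3 → ℤ} (hε : ∀ i, ε i = 1 ∨ ε i = -1) (f : ℤ → Fin 3) (Λ : Finset V)
    (σ : Dimer) (hσ : outside Λ σ = outside Λ (tau hε f)) : σ = tau hε f := by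
  classical
  set τ := tau hε f with hτ
  -- the set of even vertices where the two differ
  let D : Finset V := Λ.filter fun x => Even (ht ε x) ∧ σ.1 x ≠ τ.1 x
  have hD : ∀ x, x ∈ D ↔ Even (ht ε x) ∧ σ.1 x ≠ τ.1 x := by
    intro x
    simp only [D, Finset.mem_filter]
    refine ⟨fun h => h.2, fun h => ⟨?_, h⟩⟩
    by_contra hx
    have h1 : outside Λ τ (x, τ.1 x) := ⟨rfl, fun h => hx h.1⟩
    rw [← hσ] at h1
    exact h.2 h1.1
  have hnext : ∀ x ∈ D, τ.1 (σ.1 x) ∈ D := by
    intro x hx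
    rw [hD] at hx ⊢
    have h1 := ht_nbr hε (σ.2 x).1
    have h2 := ht_nbr hε (τ.2 (σ.1 x)).1
    refine ⟨?_, ?_⟩
    · have := hx.1
      rw [Int.even_iff] at this ⊢
      omega
    · intro h
      rw [(τ.2 (σ.1 x)).2] at h
      have h3 : τ.1 (σ.1 x) = x := by
        have := congrArg σ.1 h
        rwa [(σ.2 _).2, (σ.2 _).2] at this
      apply hx.2
      have := congrArg τ.1 h3
      rwa [(τ.2 _).2] at this
  have hempty : D = ∅ := by
    by_contra hne
    obtain ⟨x₀, hx₀, hmin₀⟩ := D.exists_min_image (ht ε) (Finset.nonempty_iff_ne_empty.2 hne)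
    let D' := D.filter fun x => ht ε x = ht ε x₀
    set i := f (ht ε x₀ / 2) with hi
    obtain ⟨x, hx, hmin⟩ := D'.exists_min_image (fun x => ε i * x i)
      ⟨x₀, by simp [D', hx₀]⟩
    have hxD : x ∈ D := (Finset.mem_filter.1 hx).1
    have hxh : ht ε x = ht ε x₀ := (Finset.mem_filter.1 hx).2
    set x' := τ.1 (σ.1 x) with hx'
    have hx'D : x' ∈ D := hnext x hxD
    have hx'e : Even (ht ε x') := ((hD x').1 hx'D).1
    have hy : σ.1 x = x' + Pi.single (f (ht ε x' / 2)) (ε (f (ht ε x' / 2))) := by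
      rw [← tau_even hε f hx'e, ← hτ, hx', (τ.2 _).2]
    have hyh : ht ε (σ.1 x) = ht ε x' + 1 := by rw [hy, ht_add, ht_single hε]
    have h1 := ht_nbr hε (σ.2 x).1
    have h2 := hmin₀ x' hx'D
    have hx'h : ht ε x' = ht ε x₀ := by omega
    have h3 := hmin x' (Finset.mem_filter.2 ⟨hx'D, hx'h⟩)
    rw [hx'h, ← hi] at hy
    have h4 : ε i * x i + 1 ≤ ε i * σ.1 x i := by
      rw [hy]
      simp only [Pi.add_apply, Pi.single_eq_same, mul_add]
      have : ε i * ε i = 1 := by rcases hε i with h | h <;> simp [h]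
      omega
    have h5 := eq_of_nbr hε (σ.2 x).1 i h4
    apply ((hD x).1 hxD).2
    rw [h5, hτ, tau_even hε f ((hD x).1 hxD).1, hxh]
  have heven : ∀ x, Even (ht ε x) → σ.1 x = τ.1 x := by
    intro x hx
    by_contra h
    have : x ∈ D := (hD x).2 ⟨hx, h⟩
    simp [hempty] at this
  apply Subtype.ext
  funext y
  by_cases hy : Even (ht ε y)
  · exact heven y hy
  · have h1 := ht_nbr hε (τ.2 y).1
    have h2 : Even (ht ε (τ.1 y)) := by
      rw [Int.even_iff] at hy ⊢
      omega
    have h3 := heven _ h2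
    rw [(τ.2 y).2] at h3
    have := congrArg σ.1 h3
    rw [(σ.2 _).2] at this
    exact this.symm

lemma infinitePaths_self (τ : Dimer) : infinitePaths τ τ = ∅ := by
  ext c
  simp only [infinitePaths, Set.mem_ofPred_eq, Set.mem_empty_iff_false, iff_false, Set.not_infinite]
  induction c using SimpleGraph.ConnectedComponent.ind with
  | _ x =>
    refine (Set.toFinite ({x, τ.1 x} : Set V)).subset ?_
    intro y hy
    rw [SimpleGraph.ConnectedComponent.mem_supp_iff, SimpleGraph.ConnectedComponent.eq] at hy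
    have hy' := (SimpleGraph.reachable_iff_reflTransGen _ _).1 hy.symm
    clear hy
    induction hy' with
    | refl => simp
    | tail _ hadj ih =>
      rename_i b c _
      have hbc : τ.1 b = c := by
        simp only [unionGraph, SimpleGraph.fromRel_adj, or_self] at hadj
        rcases hadj.2 with h | h
        · exact h
        · rw [← h, (τ.2 _).2]
      rcases ih with h | h
      · right; rw [← hbc, h]; rfl
      · left; rw [← hbc, h, (τ.2 _).2]

lemma measurable_shift (v : V) : Measurable (shift v) := by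
  refine Measurable.subtype_mk ?_
  refine measurable_pi_lambda _ fun x => ?_
  have : Measurable fun τ : Dimer => τ.1 (x - v) :=
    (measurable_pi_apply (x - v)).comp measurable_subtype_coe
  exact (measurable_of_countable (fun y : V => y + v)).comp this

lemma measurable_outside (Λ : Finset V) : Measurable (outside Λ) := by
  refine measurable_pi_lambda _ fun e => ?_
  have : Measurable fun τ : Dimer => τ.1 e.1 :=
    (measurable_pi_apply e.1).comp measurable_subtype_coe
  exact (measurable_of_countable (fun y : V => y = e.2 ∧ ¬ (e.1 ∈ Λ ∧ e.2 ∈ Λ))).comp this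

end Pool.Agent.Work.MP_5cb0a4_pr
end

-- merged part: Pool.Agent.Work.MP_5cb0a4_pr.Main
section
open MeasureTheory ProbabilityTheory

namespace Pool.Agent.Work.MP_5cb0a4_pr

section atoms

variable {G : Type} [Fintype G] [Nonempty G]

/-- The uniform mixture of the point masses at `T j`. -/
noncomputable def mix (T : G → Dimer) : Measure Dimer :=
  (Fintype.card G : ENNReal)⁻¹ • ∑ j, Measure.dirac (T j)

omit [Nonempty G] in
lemma card_inv_ne_zero : (Fintype.card G : ENNReal)⁻¹ ≠ 0 := by simp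

lemma mix_prob (T : G → Dimer) : IsProbabilityMeasure (mix T) := by
  constructor
  simp only [mix, Measure.smul_apply, Measure.finsetSum_apply, measure_univ, Finset.sum_const,
    Finset.card_univ, nsmul_eq_mul, mul_one, smul_eq_mul]
  exact ENNReal.inv_mul_cancel (by simp) (by simp)

lemma ae_mix (T : G → Dimer) (p : Dimer → Prop) : (∀ᵐ τ ∂(mix T), p τ) ↔ ∀ j, p (T j) := by
  rw [mix, Measure.ae_ennreal_smul_measure_iff card_inv_ne_zero, ae_finsetSum_measure_iff]
  simp [ae_dirac_eq]

lemma mix_singleton_pos (T : G → Dimer) (j : G) : 0 < mix T {T j} := by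
  rw [pos_iff_ne_zero]
  intro h
  have : ∀ᵐ τ ∂(mix T), τ ≠ T j := by
    rw [ae_iff]
    simpa using h
  exact (ae_mix T _).1 this j rfl

lemma mix_gibbs (T : G → Dimer)
    (hT : ∀ j Λ σ, outside Λ σ = outside Λ (T j) → σ = T j) : IsGibbs (mix T) := by
  classical
  intro Λ A hA
  have := mix_prob T
  have hle : outsideAlg Λ ≤ (inferInstance : MeasurableSpace Dimer) :=
    (measurable_outside Λ).comap_le
  let S : Set (V × V → Prop) := ⋃ j ∈ {j | T j ∈ A}, {outside Λ (T j)}
  have hS : MeasurableSet S :=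
    (Set.toFinite _).measurableSet_biUnion fun j _ => measurableSet_singleton _
  let B : Set Dimer := outside Λ ⁻¹' S
  have hB : MeasurableSet[outsideAlg Λ] B := ⟨S, hS, rfl⟩
  have hAB : ∀ j, T j ∈ B ↔ T j ∈ A := by
    intro j
    simp only [B, S, Set.mem_preimage, Set.mem_iUnion, Set.mem_singleton_iff, exists_prop,
      Set.mem_ofPred_eq]
    constructor
    · rintro ⟨i, hi, h⟩
      rwa [hT i Λ _ h]
    · intro h
      exact ⟨j, h, rfl⟩
  have h1 : A.indicator (fun _ => (1 : ℝ)) =ᵐ[mix T] B.indicator (fun _ => (1 : ℝ)) := by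
    rw [Filter.EventuallyEq, ae_mix]
    intro j
    simp [Set.indicator_apply, hAB j]
  have h2 : (mix T)[B.indicator (fun _ => (1 : ℝ)) | outsideAlg Λ] =
      B.indicator (fun _ => (1 : ℝ)) := by
    refine condExp_of_stronglyMeasurable hle (stronglyMeasurable_const.indicator hB) ?_
    exact (integrable_const _).indicator (hle _ hB)
  refine (condExp_congr_ae h1).trans ?_
  rw [h2, Filter.EventuallyEq, ae_mix]
  intro j
  have hc : completions Λ (T j) = {T j} := by
    ext σ
    simp only [completions, Set.mem_ofPred_eq, Set.mem_singleton_iff]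
    exact ⟨hT j Λ σ, fun h => by rw [h]⟩
  rw [hc, Measure.real, uniformOn_singleton]
  by_cases h : T j ∈ A
  · simp [h, (hAB j).2 h]
  · have : T j ∉ B := fun h' => h ((hAB j).1 h')
    simp [h, this]

lemma mix_invariant (T : G → Dimer) (v : V) (e : G ≃ G) (he : ∀ j, shift v (T j) = T (e j)) :
    MeasurePreserving (shift v) (mix T) (mix T) := by
  refine ⟨measurable_shift v, ?_⟩
  rw [mix, Measure.map_smul, Measure.map_finset_sum' (measurable_shift v).aemeasurable]
  simp only [Measure.map_dirac' (measurable_shift v), he]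
  rw [Equiv.sum_comp e fun j => Measure.dirac (T j)]

lemma mix_ergodic (T : G → Dimer)
    (htr : ∀ i j, ∃ v, IsEven v ∧ shift v (T i) = T j) (A : Set Dimer)
    (hA : ∀ v, IsEven v → shift v ⁻¹' A =ᵐ[mix T] A) : mix T A = 0 ∨ mix T A = 1 := by
  have := mix_prob T
  by_cases h : ∃ j, T j ∈ A
  · right
    obtain ⟨j, hj⟩ := h
    have : ∀ᵐ τ ∂(mix T), τ ∈ A := by
      rw [ae_mix]
      intro i
      obtain ⟨v, hv, hij⟩ := htr i j
      have h1 := (ae_mix T _).1 (hA v hv) i
      have h2 : T i ∈ shift v ⁻¹' A := by simpa [hij] using hj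
      exact h1.mp h2
    rw [← measure_univ (μ := mix T)]
    exact measure_congr (ae_eq_univ.2 (ae_iff.1 this))
  · left
    push Not at h
    have : ∀ᵐ τ ∂(mix T), τ ∉ A := (ae_mix T _).2 h
    simpa [ae_iff] using this

omit [Nonempty G] in
lemma integral_mix (T : G → Dimer) (g : Dimer → ℝ) :
    ∫ τ, g τ ∂(mix T) = (Fintype.card G : ℝ)⁻¹ * ∑ j, g (T j) := by
  rw [mix, integral_smul_measure, integral_finsetSum_measure]
  · simp [integral_dirac]
  · intro j _
    exact integrable_dirac (by simp)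

end atoms

theorem main (s : Fin 3 → ℚ) (hs : ∑ i, |s i| = 1) :
    ∃ ν : Measure Dimer, IsErgodicGibbs ν ∧ (meanCurrent ν = fun i => (s i : ℝ)) ∧
      0 < (ν.prod ν) {p | infinitePaths p.1 p.2 = ∅} := by
  classical
  -- signs, common denominator and multiplicities
  let ε : Fin 3 → ℤ := fun i => if 0 ≤ s i then 1 else -1
  have hε : ∀ i, ε i = 1 ∨ ε i = -1 := fun i => by
    simp only [ε]; split_ifs <;> simp
  let N : ℕ := ∏ i, (s i).den
  have hN : 0 < N := Finset.prod_pos fun i _ => (s i).den_pos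
  have : NeZero N := ⟨hN.ne'⟩
  have ha : ∀ i, ∃ a : ℕ, (a : ℚ) = |s i| * N := by
    intro i
    obtain ⟨c, hc⟩ : (s i).den ∣ N := Finset.dvd_prod_of_mem _ (Finset.mem_univ i)
    refine ⟨(s i).num.natAbs * c, ?_⟩
    rw [hc]
    push_cast
    rw [Nat.cast_natAbs, ← mul_assoc]
    congr 1
    have h1 : (s i).num = s i * (s i).den := (Rat.mul_den_eq_num (s i)).symm
    rw [Int.cast_abs, h1, abs_mul, Nat.abs_cast]
  choose a ha using ha
  have hsum : ∑ i, a i = N := by
    have : ((∑ i, a i : ℕ) : ℚ) = N := by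
      push_cast
      simp only [ha]
      rw [← Finset.sum_mul, hs, one_mul]
    exact_mod_cast this
  let e : ZMod N ≃ (Σ i : Fin 3, Fin (a i)) :=
    Fintype.equivOfCardEq (by simp [hsum])
  let F : ZMod N → Fin 3 := fun j => (e j).1
  let T : ZMod N → Dimer := fun j => tau hε fun k => F ((k : ZMod N) + j)
  have hshift : ∀ v, IsEven v → ∀ j, shift v (T j) = T (j - ((ht ε v / 2 : ℤ) : ZMod N)) := by
    intro v hv j
    simp only [T]
    rw [shift_tau hε _ hv]
    congr 1
    funext k
    congr 1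
    push_cast
    ring
  have := mix_prob T
  refine ⟨mix T, ⟨mix_prob T, mix_gibbs T fun j Λ σ h => rigid hε _ Λ σ h, ?_, ?_⟩, ?_, ?_⟩
  · intro v hv
    exact mix_invariant T v (Equiv.subRight _) (hshift v hv)
  · intro A _ hA
    refine mix_ergodic T ?_ A hA
    intro i j
    obtain ⟨m, hm⟩ := ZMod.intCast_surjective (i - j)
    let v : V := Pi.single 0 (ε 0 * (2 * m))
    have hv : ht ε v = 2 * m := by
      have : ε 0 * ε 0 = 1 := by rcases hε 0 with h | h <;> simp [h]
      simp only [ht, v, Fin.sum_univ_three]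
      simp [← mul_assoc, this]
    have hve : IsEven v := (even_ht_iff hε v).1 (by rw [hv]; exact even_two_mul m)
    refine ⟨v, hve, ?_⟩
    rw [hshift v hve, hv]
    congr 1
    rw [show 2 * m / 2 = m by omega, hm]
    ring
  · funext i
    rw [meanCurrent, integral_mix]
    have h0 : ht ε 0 = 0 := by simp [ht]
    have h1 : ∀ j, (((T j).1 0 i : ℤ) : ℝ) = if (e j).1 = i then (ε i : ℝ) else 0 := by
      intro j
      simp only [T]
      rw [tau_even hε _ (by rw [h0]; exact Even.zero), h0]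
      simp only [Int.zero_ediv, Int.cast_zero, zero_add, F, Pi.single_apply]
      split_ifs with h2 h3 h3
      · rw [h2]
      · exact absurd h2.symm h3
      · exact absurd h3.symm h2
      · simp
    simp only [h1]
    rw [Equiv.sum_comp e fun x => if x.1 = i then (ε i : ℝ) else 0, Fintype.sum_sigma,
      Finset.sum_eq_single i (fun j _ hj => by simp [hj]) (by simp)]
    simp only [if_true, Finset.sum_const, Finset.card_univ, Fintype.card_fin, nsmul_eq_mul,
      ZMod.card]
    have h3 : (a i : ℝ) = |(s i : ℝ)| * N := by exact_mod_cast ha i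
    have hN' : (N : ℝ) ≠ 0 := by exact_mod_cast hN.ne'
    rw [h3]
    simp only [ε]
    split_ifs with h4
    · rw [abs_of_nonneg (by exact_mod_cast h4)]
      field_simp
      simp
    · rw [abs_of_neg (by exact_mod_cast not_le.1 h4)]
      field_simp
      simp
  · have hsub : ({T 0} : Set Dimer) ×ˢ ({T 0} : Set Dimer) ⊆
        {p : Dimer × Dimer | infinitePaths p.1 p.2 = ∅} := by
      rintro ⟨x, y⟩ ⟨hx, hy⟩
      simp only [Set.mem_singleton_iff] at hx hy
      subst hx hy
      exact infinitePaths_self _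
    refine lt_of_lt_of_le ?_ (measure_mono hsub)
    rw [Measure.prod_prod]
    exact ENNReal.mul_pos (mix_singleton_pos T 0).ne' (mix_singleton_pos T 0).ne'

end Pool.Agent.Work.MP_5cb0a4_pr
end
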